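import Pool.Agent.H71.FX.Targets2

/-!
Board fxm_modules (MP_64fb07_lc), row NF: structures with chosen witnesses, one direction.
-/

set_option autoImplicit false

open Pool.Agent.H71.FX Pool.Agent.H71.PF

namespace Pool.Agent.H97.FX

theorem pf_NF (fa : T_FA) (fe : T_FE) (fv : T_FV) (ss : T_SS) : T_NF := by
  have _ := fv
  intro i0 a b r φ _ hvoc n hn
  obtain ⟨hn0, f, R, h⟩ := hn
  refine ⟨hn0, ?_⟩
  obtain ⟨c, -, hc⟩ := (fa (Fin n) f R φ a (true :: List.replicate b false)
    (fun _ => ⟨0, hn0⟩)).1 (h _)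
  have hw : ∀ x : Fin n, ∃ w : ℕ → Fin n, (∀ i, i < a + 1 ∨ a + 1 + b ≤ i →
      w i = Function.update c a x i) ∧ φ.Sat f R w := fun x =>
    (fe (Fin n) f R φ (a + 1) b (Function.update c a x)).1 (hc x)
  choose w hw1 hw2 using hw
  refine ⟨⟨fun z => f i0 [z], R, w⟩, ⟨?_, ?_⟩, ?_⟩
  · intro x y i hi
    show w x i = w y i
    rw [hw1 x i (Or.inl (by omega)), hw1 y i (Or.inl (by omega)),
      Function.update_of_ne (by omega), Function.update_of_ne (by omega)]
  · intro x
    show w x a = x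
    rw [hw1 x a (Or.inl (by omega)), Function.update_self]
  · intro x
    have key := ss (Fin n) (Fin n) id Function.injective_id f
      (Sk.F (⟨fun z => f i0 [z], R, w⟩ : Sk (Fin n)) x) R R (UF i0) r ?_ ?_ φ hvoc (w x)
    · exact key.2 (hw2 x)
    · rintro i l ⟨hi, hl⟩
      obtain ⟨z, rfl⟩ := List.length_eq_one_iff.1 hl
      subst hi
      rfl
    · intro i l _ _
      rw [List.map_id]

end Pool.Agent.H97.FX
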