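import Pool.Agent.H71.FX.Targets3

/-!
Board fxm_modules (MP_64fb07_lc), row VM: monotonicity in the vocabulary.
-/

set_option autoImplicit false

open Pool.Agent.H71.FX Pool.Agent.H71.PF

namespace Pool.Agent.H97.FX

private theorem tm_voc {F F' : ℕ → ℕ → Prop} (h : ∀ i k, F i k → F' i k) :
    ∀ t : Tm, t.Voc F → t.Voc F' := by
  intro t
  induction t with
  | var _ => intro _; exact trivial
  | app i ts ih => exact fun hv => ⟨h i _ hv.1, fun j => ih j (hv.2 j)⟩

theorem pf_VM : T_VM := by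
  intro F F' r r' φ hF hr
  induction φ with
  | rel i ts => exact fun h => ⟨h.1, h.2.1.trans hr, fun t ht => tm_voc hF t (h.2.2 t ht)⟩
  | eq s t => exact fun h => ⟨tm_voc hF s h.1, tm_voc hF t h.2⟩
  | neg φ ih => exact fun h => ih h
  | and φ ψ ih1 ih2 => exact fun h => ⟨ih1 h.1, ih2 h.2⟩

end Pool.Agent.H97.FX
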